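import Mathlib

set_option autoImplicit false

/-!
# Maximum independent sets of bipartite graphs

`indep_match`: if the graph induced by `W` is bipartite, then `W` has an independent subset `I` such
that the rest of `W` can be matched into `I` (theorem of König).
-/

namespace Pool.Agent.NH79.TB

open Finset

/-- Let the graph induced by the vertices with `W` be bipartite. Then there is an independent set `I`
of such vertices and an injective map `τ` of the other ones into `I` along edges. -/
theorem indep_match {V : Type} [Fintype V] (G : SimpleGraph V) (W X : V → Prop)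
    (hX : ∀ u v, W u → W v → G.Adj u v → (X u ↔ ¬ X v)) :
    ∃ (I : V → Prop) (τ : V → V), (∀ u, I u → W u) ∧ (∀ u v, I u → I v → ¬ G.Adj u v) ∧
      (∀ w, W w → ¬ I w → I (τ w) ∧ G.Adj w (τ w)) ∧
      ∀ w w', W w → ¬ I w → W w' → ¬ I w' → τ w = τ w' → w = w' := by
  classical
  set P : Finset V → Prop := fun S => (∀ u ∈ S, W u) ∧ ∀ u ∈ S, ∀ v ∈ S, ¬ G.Adj u v with hP
  obtain ⟨S, hS, hmax⟩ := Finset.exists_max_image ((univ : Finset V).powerset.filter P)
    (fun S => S.card) ⟨∅, by simp [hP]⟩
  rw [mem_filter] at hS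
  obtain ⟨-, hSW, hSI⟩ := hS
  -- one side
  have side : ∀ A : Finset V, (∀ a ∈ A, W a ∧ a ∉ S) → (∀ a ∈ A, ∀ b ∈ A, ¬ G.Adj a b) →
      A.card ≤ (A.biUnion (fun a => S.filter (fun v => G.Adj a v))).card := by
    intro A hA hAI
    set N := A.biUnion (fun a => S.filter (fun v => G.Adj a v)) with hN
    have hNS : N ⊆ S := by
      intro v hv
      rw [hN, mem_biUnion] at hv
      obtain ⟨a, _, hv⟩ := hv
      exact (mem_filter.1 hv).1
    have hdisj : Disjoint (S \ N) A := by
      rw [Finset.disjoint_left]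
      intro v hv hvA
      exact (hA v hvA).2 (mem_sdiff.1 hv).1
    have h1 := hmax ((S \ N) ∪ A) (by
      rw [mem_filter]
      refine ⟨mem_powerset.2 (subset_univ _), ?_, ?_⟩
      · intro u hu
        rcases mem_union.1 hu with hu | hu
        · exact hSW u (mem_sdiff.1 hu).1
        · exact (hA u hu).1
      · have hcross : ∀ u ∈ S \ N, ∀ a ∈ A, ¬ G.Adj a u := by
          intro u hu a ha hadj
          apply (mem_sdiff.1 hu).2
          rw [hN, mem_biUnion]
          exact ⟨a, ha, mem_filter.2 ⟨(mem_sdiff.1 hu).1, hadj⟩⟩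
        intro u hu v hv
        rcases mem_union.1 hu with hu | hu
        · rcases mem_union.1 hv with hv | hv
          · exact hSI u (mem_sdiff.1 hu).1 v (mem_sdiff.1 hv).1
          · exact fun h => hcross u hu v hv h.symm
        · rcases mem_union.1 hv with hv | hv
          · exact hcross v hv u hu
          · exact hAI u hu v hv)
    rw [card_union_of_disjoint hdisj, card_sdiff_of_subset hNS] at h1
    have h2 := card_le_card hNS
    omega
  have hall : ∀ A : Finset {w : V // W w ∧ w ∉ S}, A.card ≤
      (A.biUnion (fun a => S.filter (fun v => G.Adj a.1 v))).card := by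
    intro A
    set A1 : Finset V := (A.image Subtype.val).filter (fun a => X a) with hA1
    set A2 : Finset V := (A.image Subtype.val).filter (fun a => ¬ X a) with hA2
    have hmem : ∀ a ∈ A.image Subtype.val, W a ∧ a ∉ S := by
      intro a ha
      obtain ⟨b, _, rfl⟩ := mem_image.1 ha
      exact b.2
    have h1 := side A1 (fun a ha => hmem a (mem_filter.1 ha).1) (by
      intro a ha b hb hadj
      obtain ⟨ha1, ha2⟩ := mem_filter.1 ha
      obtain ⟨hb1, hb2⟩ := mem_filter.1 hb
      exact ((hX a b (hmem a ha1).1 (hmem b hb1).1 hadj).1 ha2) hb2)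
    have h2 := side A2 (fun a ha => hmem a (mem_filter.1 ha).1) (by
      intro a ha b hb hadj
      obtain ⟨ha1, ha2⟩ := mem_filter.1 ha
      obtain ⟨hb1, hb2⟩ := mem_filter.1 hb
      exact ha2 ((hX a b (hmem a ha1).1 (hmem b hb1).1 hadj).2 hb2))
    have hcard : A.card = A1.card + A2.card := by
      rw [hA1, hA2, card_filter_add_card_filter_not]
      exact (card_image_of_injective _ Subtype.val_injective).symm
    have hdisj : Disjoint (A1.biUnion (fun a => S.filter (fun v => G.Adj a v)))
        (A2.biUnion (fun a => S.filter (fun v => G.Adj a v))) := by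
      rw [Finset.disjoint_left]
      intro v hv1 hv2
      obtain ⟨a, ha, hva⟩ := mem_biUnion.1 hv1
      obtain ⟨b, hb, hvb⟩ := mem_biUnion.1 hv2
      obtain ⟨ha1, ha2⟩ := mem_filter.1 ha
      obtain ⟨hb1, hb2⟩ := mem_filter.1 hb
      obtain ⟨hvS, hav⟩ := mem_filter.1 hva
      obtain ⟨_, hbv⟩ := mem_filter.1 hvb
      have h3 := hX a v (hmem a ha1).1 (hSW v hvS) hav
      have h4 := hX b v (hmem b hb1).1 (hSW v hvS) hbv
      tauto
    have hsub : A1.biUnion (fun a => S.filter (fun v => G.Adj a v)) ∪
        A2.biUnion (fun a => S.filter (fun v => G.Adj a v)) ⊆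
        A.biUnion (fun a => S.filter (fun v => G.Adj a.1 v)) := by
      intro v hv
      rw [mem_biUnion]
      rcases mem_union.1 hv with hv | hv
      · obtain ⟨a, ha, hva⟩ := mem_biUnion.1 hv
        obtain ⟨b, hb, rfl⟩ := mem_image.1 (mem_filter.1 ha).1
        exact ⟨b, hb, hva⟩
      · obtain ⟨a, ha, hva⟩ := mem_biUnion.1 hv
        obtain ⟨b, hb, rfl⟩ := mem_image.1 (mem_filter.1 ha).1
        exact ⟨b, hb, hva⟩
    have h3 := card_le_card hsub
    rw [card_union_of_disjoint hdisj] at h3
    omega
  obtain ⟨τ, hτi, hτ⟩ := (Finset.all_card_le_biUnion_card_iff_exists_injective _).1 hall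
  refine ⟨fun v => v ∈ S, fun w => if h : W w ∧ w ∉ S then τ ⟨w, h⟩ else w, hSW,
    fun u v hu hv => hSI u hu v hv, ?_, ?_⟩
  · intro w hw hwS
    simp only
    rw [dif_pos ⟨hw, hwS⟩]
    have h := hτ ⟨w, hw, hwS⟩
    rw [mem_filter] at h
    exact h
  · intro w w' hw hwS hw' hwS' heq
    simp only at heq
    rw [dif_pos ⟨hw, hwS⟩, dif_pos ⟨hw', hwS'⟩] at heq
    exact congrArg Subtype.val (hτi heq)

end Pool.Agent.NH79.TB
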