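import Mathlib
import Pool.Agent.TH559.LE.Red

set_option autoImplicit false

/-!
# List edge colourings of bipartite graphs with short lists away from an independent set

`lists_main`: let `I` be an independent set of a bipartite graph, let every vertex of `I` select one of
its edges, and suppose that every vertex outside `I` is either selected by a vertex of `I` or has degree
less than `d v`.  Then the edges can be coloured from lists of size `max (d u) (d v)` for the edges at
`I` and `max (d u) (d v) - 1` for the other edges.  In the preferences of Galvin's argument the selected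
edges are first at their ends in `I` and last at their other ends; the other edges are ranked by the
theorem of Borodin, Kostochka and Woodall.
-/

namespace Pool.Agent.NH79.TB

open Finset Pool.Agent.TH559.LE

open Classical in
theorem lists_pairs {V C : Type} [Fintype V] [Inhabited C] (E : Finset (V × V))
    (hE : ∀ e ∈ E, ∀ f ∈ E, e.1 ≠ f.2) (I : V → Prop)
    (hI : ∀ e ∈ E, ¬ (I e.1 ∧ I e.2)) (ν : V → V)
    (hν1 : ∀ e ∈ E, I e.1 → (e.1, ν e.1) ∈ E) (hν2 : ∀ e ∈ E, I e.2 → (ν e.2, e.2) ∈ E)
    (d : V → ℕ)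
    (hd1 : ∀ e ∈ E, (E.filter (fun f => f.1 = e.1)).card ≤ d e.1)
    (hd2 : ∀ e ∈ E, (E.filter (fun f => f.2 = e.2)).card ≤ d e.2)
    (hs1 : ∀ e ∈ E, ¬ I e.1 → (E.filter (fun f => f.1 = e.1)).card + 1 ≤ d e.1 ∨
      ∃ u, I u ∧ (e.1, u) ∈ E ∧ ν u = e.1)
    (hs2 : ∀ e ∈ E, ¬ I e.2 → (E.filter (fun f => f.2 = e.2)).card + 1 ≤ d e.2 ∨
      ∃ u, I u ∧ (u, e.2) ∈ E ∧ ν u = e.2)
    (L : V × V → Finset C)
    (hL : ∀ e ∈ E, max (d e.1) (d e.2) ≤ (L e).card + 1)
    (hLI : ∀ e ∈ E, I e.1 ∨ I e.2 → max (d e.1) (d e.2) ≤ (L e).card) :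
    ∃ φ : V × V → C, ∀ e ∈ E, φ e ∈ L e ∧
      ∀ f ∈ E, f ≠ e → (f.1 = e.1 ∨ f.2 = e.2) → φ f ≠ φ e := by
  have _ := hE
  set N : V × V → Prop := fun e => (I e.1 ∧ ν e.1 = e.2) ∨ (I e.2 ∧ ν e.2 = e.1) with hN
  set E2 : Finset (V × V) := E.filter (fun e => ¬ N e) with hE2
  have hE2E : E2 ⊆ E := filter_subset _ _
  obtain ⟨c, hc1, hc2⟩ := ranks E2.card E2 (fun u => Finset.card_filter_le _ _)
    (fun u => Finset.card_filter_le _ _)
  -- degrees after the removal of the selected edges
  have deg1 : ∀ e ∈ E, (E2.filter (fun f => f.1 = e.1)).card + 1 ≤ d e.1 := by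
    intro e he
    have hrem : ∀ g ∈ E, g.1 = e.1 → N g →
        (E2.filter (fun f => f.1 = e.1)).card + 1 ≤ d e.1 := by
      intro g hg hg1 hgN
      have hlt : (E2.filter (fun f => f.1 = e.1)).card < (E.filter (fun f => f.1 = e.1)).card := by
        apply card_lt_card
        refine ⟨filter_subset_filter _ hE2E, fun hsub => ?_⟩
        have := hsub (mem_filter.2 ⟨hg, hg1⟩)
        exact (mem_filter.1 (mem_filter.1 this).1).2 hgN
      have := hd1 e he
      omega
    by_cases hIe : I e.1
    · exact hrem (e.1, ν e.1) (hν1 e he hIe) rfl (Or.inl ⟨hIe, rfl⟩)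
    · rcases hs1 e he hIe with h | ⟨u, hu, huE, huν⟩
      · have := card_le_card (filter_subset_filter (fun f : V × V => f.1 = e.1) hE2E)
        omega
      · exact hrem (e.1, u) huE rfl (Or.inr ⟨hu, huν⟩)
  have deg2 : ∀ e ∈ E, (E2.filter (fun f => f.2 = e.2)).card + 1 ≤ d e.2 := by
    intro e he
    have hrem : ∀ g ∈ E, g.2 = e.2 → N g →
        (E2.filter (fun f => f.2 = e.2)).card + 1 ≤ d e.2 := by
      intro g hg hg1 hgN
      have hlt : (E2.filter (fun f => f.2 = e.2)).card < (E.filter (fun f => f.2 = e.2)).card := by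
        apply card_lt_card
        refine ⟨filter_subset_filter _ hE2E, fun hsub => ?_⟩
        have := hsub (mem_filter.2 ⟨hg, hg1⟩)
        exact (mem_filter.1 (mem_filter.1 this).1).2 hgN
      have := hd2 e he
      omega
    by_cases hIe : I e.2
    · exact hrem (ν e.2, e.2) (hν2 e he hIe) rfl (Or.inr ⟨hIe, rfl⟩)
    · rcases hs2 e he hIe with h | ⟨u, hu, huE, huν⟩
      · have := card_le_card (filter_subset_filter (fun f : V × V => f.2 = e.2) hE2E)
        omega
      · exact hrem (u, e.2) huE rfl (Or.inl ⟨hu, huν⟩)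
  -- the preferences
  set n : ℕ := Fintype.card V with hn
  set B : ℕ := E2.sup c + 1 with hB
  have hcB : ∀ e ∈ E2, c e < B := fun e he => Nat.lt_succ_of_le (Finset.le_sup (f := c) he)
  set idx : V → ℕ := fun v => (Fintype.equivFin V v).val with hidx
  have hidxn : ∀ v, idx v < n := fun v => (Fintype.equivFin V v).isLt
  have hidxi : ∀ v w, idx v = idx w → v = w := fun v w h =>
    (Fintype.equivFin V).injective (Fin.ext h)
  set p : V × V → ℕ := fun e => if I e.1 ∧ ν e.1 = e.2 then n + B else
    if I e.2 ∧ ν e.2 = e.1 then idx e.2 else n + c e with hp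
  set q : V × V → ℕ := fun e => if I e.2 ∧ ν e.2 = e.1 then 0 else
    if I e.1 ∧ ν e.1 = e.2 then 1 + B + idx e.1 else 1 + c e with hq
  -- the three kinds of edges
  have kind : ∀ e ∈ E, (I e.1 ∧ ν e.1 = e.2 ∧ ¬ I e.2 ∧ p e = n + B ∧ q e = 1 + B + idx e.1) ∨
      (I e.2 ∧ ν e.2 = e.1 ∧ ¬ I e.1 ∧ p e = idx e.2 ∧ q e = 0) ∨
      (e ∈ E2 ∧ p e = n + c e ∧ q e = 1 + c e) := by
    intro e he
    have hnot := hI e he
    by_cases h1 : I e.1 ∧ ν e.1 = e.2
    · left
      have h2 : ¬ I e.2 := fun h => hnot ⟨h1.1, h⟩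
      refine ⟨h1.1, h1.2, h2, ?_, ?_⟩
      · simp only [hp]; rw [if_pos h1]
      · simp only [hq]; rw [if_neg (fun h => h2 h.1), if_pos h1]
    · by_cases h2 : I e.2 ∧ ν e.2 = e.1
      · right; left
        have h3 : ¬ I e.1 := fun h => hnot ⟨h, h2.1⟩
        refine ⟨h2.1, h2.2, h3, ?_, ?_⟩
        · simp only [hp]; rw [if_neg h1, if_pos h2]
        · simp only [hq]; rw [if_pos h2]
      · right; right
        refine ⟨mem_filter.2 ⟨he, fun h => h.elim h1 h2⟩, ?_, ?_⟩
        · simp only [hp]; rw [if_neg h1, if_neg h2]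
        · simp only [hq]; rw [if_neg h2, if_neg h1]
  have hpi : ∀ e ∈ E, ∀ f ∈ E, e.1 = f.1 → p e = p f → e = f := by
    intro e he f hf h1 hpe
    rcases kind e he with ⟨a1, a2, a3, a4, a5⟩ | ⟨a1, a2, a3, a4, a5⟩ | ⟨a1, a2, a3⟩ <;>
    rcases kind f hf with ⟨b1, b2, b3, b4, b5⟩ | ⟨b1, b2, b3, b4, b5⟩ | ⟨b1, b2, b3⟩
    · exact Prod.ext h1 (by rw [← a2, ← b2, h1])
    · have := hidxn f.2; omega
    · have := hcB f b1; omega
    · have := hidxn e.2; omega
    · exact Prod.ext h1 (hidxi _ _ (by omega))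
    · have := hidxn e.2; omega
    · have := hcB e a1; omega
    · have := hidxn f.2; omega
    · exact hc1 e a1 f b1 (Or.inl h1) (by omega)
  have hqi : ∀ e ∈ E, ∀ f ∈ E, e.2 = f.2 → q e = q f → e = f := by
    intro e he f hf h1 hpe
    rcases kind e he with ⟨a1, a2, a3, a4, a5⟩ | ⟨a1, a2, a3, a4, a5⟩ | ⟨a1, a2, a3⟩ <;>
    rcases kind f hf with ⟨b1, b2, b3, b4, b5⟩ | ⟨b1, b2, b3, b4, b5⟩ | ⟨b1, b2, b3⟩
    · exact Prod.ext (hidxi _ _ (by omega)) h1
    · omega
    · have := hcB f b1; omega
    · omega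
    · exact Prod.ext (by rw [← a2, ← b2, h1]) h1
    · omega
    · have := hcB e a1; omega
    · omega
    · exact hc1 e a1 f b1 (Or.inr h1) (by omega)
  -- ranks
  have rk : ∀ e ∈ E, (E.filter (fun f => f.1 = e.1 ∧ p e < p f)).card +
      (E.filter (fun f => f.2 = e.2 ∧ q f < q e)).card < (L e).card := by
    intro e he
    rcases kind e he with ⟨a1, a2, a3, a4, a5⟩ | ⟨a1, a2, a3, a4, a5⟩ | ⟨a1, a2, a3⟩
    · -- first at its first end
      have h1 : (E.filter (fun f => f.1 = e.1 ∧ p e < p f)) = ∅ := by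
        rw [filter_eq_empty_iff]
        rintro f hf ⟨h2, h3⟩
        rcases kind f hf with ⟨b1, b2, b3, b4, b5⟩ | ⟨b1, b2, b3, b4, b5⟩ | ⟨b1, b2, b3⟩
        · omega
        · have := hidxn f.2; omega
        · have := hcB f b1; omega
      have h2 : (E.filter (fun f => f.2 = e.2 ∧ q f < q e)).card <
          (E.filter (fun f => f.2 = e.2)).card := by
        apply card_lt_card
        refine ⟨fun f hf => ?_, fun hsub => ?_⟩
        · rw [mem_filter] at hf ⊢
          exact ⟨hf.1, hf.2.1⟩
        · have := hsub (mem_filter.2 ⟨he, rfl⟩)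
          rw [mem_filter] at this
          exact lt_irrefl _ this.2.2
      have h3 := hLI e he (Or.inl a1)
      have h4 := hd2 e he
      have h5 := le_max_right (d e.1) (d e.2)
      rw [h1, card_empty]
      omega
    · have h1 : (E.filter (fun f => f.2 = e.2 ∧ q f < q e)) = ∅ := by
        rw [filter_eq_empty_iff]
        rintro f hf ⟨h2, h3⟩
        omega
      have h2 : (E.filter (fun f => f.1 = e.1 ∧ p e < p f)).card <
          (E.filter (fun f => f.1 = e.1)).card := by
        apply card_lt_card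
        refine ⟨fun f hf => ?_, fun hsub => ?_⟩
        · rw [mem_filter] at hf ⊢
          exact ⟨hf.1, hf.2.1⟩
        · have := hsub (mem_filter.2 ⟨he, rfl⟩)
          rw [mem_filter] at this
          exact lt_irrefl _ this.2.2
      have h3 := hLI e he (Or.inr a1)
      have h4 := hd1 e he
      have h5 := le_max_left (d e.1) (d e.2)
      rw [h1, card_empty]
      omega
    · have h0 := hc2 e a1
      have h1 := deg1 e he
      have h2 := deg2 e he
      have h3 : (E.filter (fun f => f.1 = e.1 ∧ p e < p f)).card ≤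
          (E2.filter (fun f => f.1 = e.1 ∧ c e < c f)).card + (if I e.1 then 1 else 0) := by
        have hsub : (E.filter (fun f => f.1 = e.1 ∧ p e < p f)) ⊆
            (E2.filter (fun f => f.1 = e.1 ∧ c e < c f)) ∪
              (if I e.1 then {(e.1, ν e.1)} else ∅) := by
          intro f hf
          rw [mem_filter] at hf
          obtain ⟨hf1, hf2, hf3⟩ := hf
          rw [mem_union]
          rcases kind f hf1 with ⟨b1, b2, b3, b4, b5⟩ | ⟨b1, b2, b3, b4, b5⟩ | ⟨b1, b2, b3⟩
          · right
            rw [hf2] at b1 b2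
            rw [if_pos b1, mem_singleton]
            exact Prod.ext hf2 b2.symm
          · have := hidxn f.2; omega
          · left
            rw [mem_filter]
            exact ⟨b1, hf2, by omega⟩
        refine le_trans (card_le_card hsub) (le_trans (card_union_le _ _) ?_)
        split_ifs
        · simp
        · simp
      have h4 : (E.filter (fun f => f.2 = e.2 ∧ q f < q e)).card ≤
          (E2.filter (fun f => f.2 = e.2 ∧ c f < c e)).card + (if I e.2 then 1 else 0) := by
        have hsub : (E.filter (fun f => f.2 = e.2 ∧ q f < q e)) ⊆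
            (E2.filter (fun f => f.2 = e.2 ∧ c f < c e)) ∪
              (if I e.2 then {(ν e.2, e.2)} else ∅) := by
          intro f hf
          rw [mem_filter] at hf
          obtain ⟨hf1, hf2, hf3⟩ := hf
          rw [mem_union]
          rcases kind f hf1 with ⟨b1, b2, b3, b4, b5⟩ | ⟨b1, b2, b3, b4, b5⟩ | ⟨b1, b2, b3⟩
          · have := hcB e a1; omega
          · right
            rw [hf2] at b1 b2
            rw [if_pos b1, mem_singleton]
            exact Prod.ext b2.symm hf2
          · left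
            rw [mem_filter]
            exact ⟨b1, hf2, by omega⟩
        refine le_trans (card_le_card hsub) (le_trans (card_union_le _ _) ?_)
        split_ifs
        · simp
        · simp
      have h5 : max (E2.filter (fun f => f.1 = e.1)).card (E2.filter (fun f => f.2 = e.2)).card + 1
          ≤ max (d e.1) (d e.2) := by
        have := le_max_left (d e.1) (d e.2)
        have := le_max_right (d e.1) (d e.2)
        rcases le_total (E2.filter (fun f => f.1 = e.1)).card
          (E2.filter (fun f => f.2 = e.2)).card with h | h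
        · rw [max_eq_right h]; omega
        · rw [max_eq_left h]; omega
      have h6 := hL e he
      by_cases i1 : I e.1
      · have i2 : ¬ I e.2 := fun h => hI e he ⟨i1, h⟩
        have h7 := hLI e he (Or.inl i1)
        rw [if_pos i1] at h3
        rw [if_neg i2] at h4
        omega
      · rw [if_neg i1] at h3
        by_cases i2 : I e.2
        · have h7 := hLI e he (Or.inr i2)
          rw [if_pos i2] at h4
          omega
        · rw [if_neg i2] at h4
          omega
  -- Galvin's argument
  have tr : ∀ P : V × V → Prop, ((univ : Finset {e // e ∈ E}).filter (fun f => P f.1)).card =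
      (E.filter P).card := by
    intro P
    refine Finset.card_bij (fun f _ => f.1) ?_ ?_ ?_
    · intro f hf
      rw [Finset.mem_filter] at hf ⊢
      exact ⟨f.2, hf.2⟩
    · intro a _ b _ h
      exact Subtype.ext h
    · intro f hf
      rw [Finset.mem_filter] at hf
      exact ⟨⟨f, hf.1⟩, Finset.mem_filter.2 ⟨Finset.mem_univ _, hf.2⟩, rfl⟩
  obtain ⟨φ, hφ⟩ := galvin (α := {e // e ∈ E}) (fun e => e.1.1) (fun e => e.1.2)
    (fun e => p e.1) (fun e => q e.1)
    (fun e f h1 h2 => Subtype.ext (hpi e.1 e.2 f.1 f.2 h1 h2))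
    (fun e f h1 h2 => Subtype.ext (hqi e.1 e.2 f.1 f.2 h1 h2))
    _ univ (fun e => L e.1) rfl (by
      intro e _
      refine lt_of_le_of_lt (le_of_eq ?_) (rk e.1 e.2)
      refine congrArg₂ (· + ·) ?_ ?_
      · have h := tr (fun f => f.1 = e.1.1 ∧ p e.1 < p f)
        convert h
      · have h := tr (fun f => f.2 = e.1.2 ∧ q f < q e.1)
        convert h)
  refine ⟨fun e => if h : e ∈ E then φ ⟨e, h⟩ else default, ?_⟩
  intro e he
  obtain ⟨h1, h2⟩ := hφ ⟨e, he⟩ (Finset.mem_univ _)
  simp only [dif_pos he]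
  refine ⟨h1, fun f hf hfe hor => ?_⟩
  simp only [dif_pos hf]
  intro heq
  have := h2 ⟨f, hf⟩ (Finset.mem_univ _) (fun h => hfe (congrArg Subtype.val h)) heq
  rcases hor with h | h
  · exact this.1 h
  · exact this.2 h

end Pool.Agent.NH79.TB
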