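import Mathlib
import Pool.Agent.NH79.TB.Orders
import Pool.Agent.NH79.TB.Indep

set_option autoImplicit false

/-!
# Total colourings of graphs that are bipartite outside a precoloured matching

`lists_main` is `lists_pairs` for simple graphs; `combine` puts the colours of the vertices, of the
matching and of the other edges together; `extend` is the extension theorem in terms of a vertex
colouring in which the vertices of the independent set have good colours.
-/

namespace Pool.Agent.NH79.TB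

open Finset Pool.Agent.TH559.LE

/-- `f` (colours of the vertices) and `g` (colours of the edges) form a total colouring of `G`:
adjacent vertices have different colours, edges that share an end have different colours, and the
colour of an edge differs from the colours of its ends.  (The values of `g` on pairs that are not
edges are irrelevant.) -/
def IsTot {V C : Type} (G : SimpleGraph V) (f : V → C) (g : Sym2 V → C) : Prop :=
  (∀ u v, G.Adj u v → f u ≠ f v) ∧
  (∀ u v w, G.Adj u v → G.Adj u w → v ≠ w → g s(u, v) ≠ g s(u, w)) ∧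
  ∀ u v, G.Adj u v → g s(u, v) ≠ f u

theorem lists_main {V C : Type} [Fintype V] [Inhabited C] (G : SimpleGraph V) (X I : V → Prop)
    (hX : ∀ u v, G.Adj u v → (X u ↔ ¬ X v)) (hI : ∀ u v, I u → I v → ¬ G.Adj u v) (ν : V → V)
    (hν : ∀ u v, I u → G.Adj u v → G.Adj u (ν u)) (d : V → ℕ) (hd : ∀ v, dg G v ≤ d v)
    (hs : ∀ v, ¬ I v → dg G v + 1 ≤ d v ∨ ∃ u, I u ∧ G.Adj u v ∧ ν u = v)
    (L : Sym2 V → Finset C)
    (hL : ∀ u v, G.Adj u v → max (d u) (d v) ≤ (L s(u, v)).card + 1)
    (hLI : ∀ u v, G.Adj u v → I u → max (d u) (d v) ≤ (L s(u, v)).card) :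
    ∃ c : Sym2 V → C, (∀ u v, G.Adj u v → c s(u, v) ∈ L s(u, v)) ∧
      ∀ u v w, G.Adj u v → G.Adj u w → v ≠ w → c s(u, v) ≠ c s(u, w) := by
  classical
  set E : Finset (V × V) := univ.filter (fun e => X e.1 ∧ G.Adj e.1 e.2) with hE
  have hEm : ∀ e, e ∈ E ↔ X e.1 ∧ G.Adj e.1 e.2 := by
    intro e
    simp [hE]
  have hE2 : ∀ e ∈ E, ¬ X e.2 := by
    intro e he
    have h := (hEm e).1 he
    exact (hX _ _ h.2).1 h.1
  have c1 : ∀ e ∈ E, (E.filter (fun f => f.1 = e.1)).card ≤ dg G e.1 := by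
    intro e _
    rw [dg_eq]
    apply card_le_card_of_injOn (fun f => f.2)
    · intro f hf
      obtain ⟨h1, h2⟩ := mem_filter.1 (mem_coe.1 hf)
      rw [hEm] at h1
      rw [← h2]
      simpa using h1.2
    · intro f hf g hg hfg
      obtain ⟨_, h2⟩ := mem_filter.1 (mem_coe.1 hf)
      obtain ⟨_, h4⟩ := mem_filter.1 (mem_coe.1 hg)
      exact Prod.ext (h2.trans h4.symm) hfg
  have c2 : ∀ e ∈ E, (E.filter (fun f => f.2 = e.2)).card ≤ dg G e.2 := by
    intro e _
    rw [dg_eq]
    apply card_le_card_of_injOn (fun f => f.1)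
    · intro f hf
      obtain ⟨h1, h2⟩ := mem_filter.1 (mem_coe.1 hf)
      rw [hEm] at h1
      rw [← h2]
      simpa using h1.2.symm
    · intro f hf g hg hfg
      obtain ⟨_, h2⟩ := mem_filter.1 (mem_coe.1 hf)
      obtain ⟨_, h4⟩ := mem_filter.1 (mem_coe.1 hg)
      exact Prod.ext hfg (h2.trans h4.symm)
  obtain ⟨φ, hφ⟩ := lists_pairs E
    (fun e he f hf h => hE2 f hf (h ▸ ((hEm e).1 he).1)) I
    (fun e he h => hI _ _ h.1 h.2 ((hEm e).1 he).2) ν
    (fun e he h => (hEm _).2 ⟨((hEm e).1 he).1, hν _ _ h ((hEm e).1 he).2⟩)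
    (fun e he h => (hEm _).2 (by
      have h1 := hν _ _ h ((hEm e).1 he).2.symm
      refine ⟨?_, h1.symm⟩
      by_contra h2
      exact hE2 e he ((hX _ _ h1).2 h2)))
    d (fun e he => (c1 e he).trans (hd _)) (fun e he => (c2 e he).trans (hd _))
    (fun e he h => (hs e.1 h).imp
      (fun h1 => le_trans (Nat.add_le_add_right (c1 e he) 1) h1)
      (fun ⟨u, h1, h2, h3⟩ => ⟨u, h1, (hEm _).2 ⟨((hEm e).1 he).1, h2.symm⟩, h3⟩))
    (fun e he h => (hs e.2 h).imp
      (fun h1 => le_trans (Nat.add_le_add_right (c2 e he) 1) h1)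
      (fun ⟨u, h1, h2, h3⟩ => ⟨u, h1, (hEm _).2 ⟨by
        by_contra h4
        exact hE2 e he ((hX _ _ h2.symm).2 h4), h2⟩, h3⟩))
    (fun e => L s(e.1, e.2))
    (fun e he => hL _ _ ((hEm e).1 he).2)
    (fun e he h => by
      rcases h with h | h
      · exact hLI _ _ ((hEm e).1 he).2 h
      · have h1 := hLI _ _ ((hEm e).1 he).2.symm h
        rw [max_comm, Sym2.eq_swap] at h1
        exact h1)
  have uniq : ∀ e ∈ E, ∀ f ∈ E, s(e.1, e.2) = s(f.1, f.2) → e = f := by
    intro e he f hf h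
    rcases Sym2.eq_iff.1 h with ⟨h1, h2⟩ | ⟨h1, h2⟩
    · exact Prod.ext h1 h2
    · exact absurd (h1 ▸ ((hEm e).1 he).1) (hE2 f hf)
  set c : Sym2 V → C := fun z => if h : ∃ e, e ∈ E ∧ s(e.1, e.2) = z then φ (Classical.choose h)
    else default with hc
  have hcE : ∀ e ∈ E, c s(e.1, e.2) = φ e := by
    intro e he
    have hex : ∃ f, f ∈ E ∧ s(f.1, f.2) = s(e.1, e.2) := ⟨e, he, rfl⟩
    simp only [hc]
    rw [dif_pos hex]
    obtain ⟨h1, h2⟩ := Classical.choose_spec hex
    rw [uniq _ h1 e he h2]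
  have hor : ∀ u v, G.Adj u v → ((u, v) ∈ E ∨ (v, u) ∈ E) := by
    intro u v huv
    by_cases h : X u
    · exact Or.inl ((hEm _).2 ⟨h, huv⟩)
    · refine Or.inr ((hEm _).2 ⟨?_, huv.symm⟩)
      exact (hX v u huv.symm).2 h
  refine ⟨c, ?_, ?_⟩
  · intro u v huv
    rcases hor u v huv with h | h
    · have h1 := hcE _ h
      have h2 := (hφ _ h).1
      rw [← h1] at h2
      exact h2
    · have h1 := hcE _ h
      have h2 := (hφ _ h).1
      rw [← h1] at h2
      simp only at h2
      rw [Sym2.eq_swap] at h2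
      exact h2
  · intro u v w huv huw hne
    rcases hor u v huv with h | h
    · have hXu : X u := ((hEm _).1 h).1
      have h' : (u, w) ∈ E := (hEm _).2 ⟨hXu, huw⟩
      have h1 := (hφ _ h').2 _ h (fun hh => hne (Prod.mk.inj hh).2) (Or.inl rfl)
      rw [← hcE _ h, ← hcE _ h'] at h1
      exact h1
    · have hXu : ¬ X u := hE2 _ h
      have h' : (w, u) ∈ E := by
        rcases hor u w huw with h3 | h3
        · exact absurd ((hEm _).1 h3).1 hXu
        · exact h3
      have h1 := (hφ _ h').2 _ h (fun hh => hne (Prod.mk.inj hh).1) (Or.inr rfl)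
      rw [← hcE _ h, ← hcE _ h'] at h1
      simp only at h1
      rw [Sym2.eq_swap, Sym2.eq_swap (a := w)] at h1
      exact h1

open Classical in
/-- A vertex colouring, a colouring of the matching and a colouring of the other edges. -/
theorem combine {V C : Type} (G H : SimpleGraph V)
    (hmatch : ∀ u v w, H.Adj u v → H.Adj u w → v = w)
    (g0 : Sym2 V → C) (f : V → C) (hf : ∀ u v, G.Adj u v → f u ≠ f v)
    (hfg : ∀ u v, H.Adj u v → g0 s(u, v) ≠ f u) (c : Sym2 V → C)
    (hc1 : ∀ u v, (G \ H).Adj u v → c s(u, v) ≠ f u ∧ ∀ x, H.Adj u x → c s(u, v) ≠ g0 s(u, x))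
    (hc2 : ∀ u v w, (G \ H).Adj u v → (G \ H).Adj u w → v ≠ w → c s(u, v) ≠ c s(u, w)) :
    IsTot G f (fun z => if z ∈ H.edgeSet then g0 z else c z) := by
  have hin : ∀ u v, H.Adj u v →
      (fun z => if z ∈ H.edgeSet then g0 z else c z) s(u, v) = g0 s(u, v) := by
    intro u v huv
    simp only
    rw [if_pos ((SimpleGraph.mem_edgeSet H).2 huv)]
  have hout : ∀ u v, ¬ H.Adj u v →
      (fun z => if z ∈ H.edgeSet then g0 z else c z) s(u, v) = c s(u, v) := by
    intro u v huv
    simp only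
    rw [if_neg (fun h => huv ((SimpleGraph.mem_edgeSet H).1 h))]
  refine ⟨hf, ?_, ?_⟩
  · intro u v w huv huw hne
    by_cases h1 : H.Adj u v
    · by_cases h2 : H.Adj u w
      · exact absurd (hmatch u v w h1 h2) hne
      · rw [hin u v h1, hout u w h2]
        exact ((hc1 u w ⟨huw, h2⟩).2 v h1).symm
    · by_cases h2 : H.Adj u w
      · rw [hin u w h2, hout u v h1]
        exact (hc1 u v ⟨huv, h1⟩).2 w h2
      · rw [hout u w h2, hout u v h1]
        exact hc2 u v w ⟨huv, h1⟩ ⟨huw, h2⟩ hne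
  · intro u v huv
    by_cases h1 : H.Adj u v
    · rw [hin u v h1]
      exact hfg u v h1
    · rw [hout u v h1]
      exact (hc1 u v ⟨huv, h1⟩).1

end Pool.Agent.NH79.TB
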