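import Mathlib
import Pool.Agent.NH79.TB.Graph

set_option autoImplicit false

/-!
# The extension theorems

`extend`: colouring the edges outside the matching `M`, when the graph is bipartite outside `M`, near
edges of `M` have the same colour, and the vertices of the independent set `I` next to `M` have good
colours.
-/

namespace Pool.Agent.NH79.TB

open Finset Pool.Agent.TH559.LE

/-- Greedy extension of a vertex colouring from lists. -/
theorem vext_list {V C : Type} [Fintype V] (G : SimpleGraph V) (f0 : V → C) (D : V → Prop)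
    (hprop : ∀ u v, D u → D v → G.Adj u v → f0 u ≠ f0 v) (Lv : V → Finset C)
    (hdeg : ∀ v, ¬ D v → dg G v < (Lv v).card) :
    ∃ f : V → C, (∀ v, D v → f v = f0 v) ∧ (∀ v, ¬ D v → f v ∈ Lv v) ∧
      ∀ u v, G.Adj u v → f u ≠ f v := by
  classical
  have key : ∀ S : Finset V, ∃ f : V → C, (∀ v, D v → f v = f0 v) ∧
      (∀ v ∈ S, ¬ D v → f v ∈ Lv v) ∧
      ∀ u v, (D u ∨ u ∈ S) → (D v ∨ v ∈ S) → G.Adj u v → f u ≠ f v := by
    intro S
    induction S using Finset.induction_on with
    | empty =>
      refine ⟨f0, fun _ _ => rfl, by simp, ?_⟩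
      intro u v hu hv
      simp only [notMem_empty, or_false] at hu hv
      exact hprop u v hu hv
    | insert a S _ ih =>
      obtain ⟨f, h1, h3, h2⟩ := ih
      by_cases ha : D a
      · refine ⟨f, h1, ?_, ?_⟩
        · intro v hv hvD
          rcases mem_insert.1 hv with rfl | hv
          · exact absurd ha hvD
          · exact h3 v hv hvD
        · intro u v hu hv
          apply h2
          · rcases hu with hu | hu
            · exact Or.inl hu
            · rcases mem_insert.1 hu with rfl | hu
              · exact Or.inl ha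
              · exact Or.inr hu
          · rcases hv with hv | hv
            · exact Or.inl hv
            · rcases mem_insert.1 hv with rfl | hv
              · exact Or.inl ha
              · exact Or.inr hv
      · have hcard : ((univ.filter (fun w => G.Adj a w)).image f).card < (Lv a).card := by
          refine lt_of_le_of_lt card_image_le ?_
          rw [← dg_eq]
          exact hdeg a ha
        obtain ⟨γ, hγL, hγ⟩ := exists_mem_notMem_of_card_lt_card hcard
        have hγ' : ∀ w, G.Adj a w → f w ≠ γ := by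
          intro w hw heq
          exact hγ (mem_image.2 ⟨w, by simpa using hw, heq⟩)
        refine ⟨Function.update f a γ, ?_, ?_, ?_⟩
        · intro v hv
          have hva : v ≠ a := by
            rintro rfl
            exact ha hv
          rw [Function.update_of_ne hva]
          exact h1 v hv
        · intro v hv hvD
          by_cases hva : v = a
          · subst hva
            rw [Function.update_self]
            exact hγL
          · rw [Function.update_of_ne hva]
            exact h3 v ((mem_insert.1 hv).resolve_left hva) hvD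
        · intro u v hu hv huv
          by_cases hua : u = a
          · subst hua
            have hvu : v ≠ u := huv.ne'
            rw [Function.update_self, Function.update_of_ne hvu]
            exact (hγ' v huv).symm
          · by_cases hva : v = a
            · subst hva
              rw [Function.update_self, Function.update_of_ne hua]
              exact hγ' u huv.symm
            · rw [Function.update_of_ne hua, Function.update_of_ne hva]
              refine h2 u v ?_ ?_ huv
              · rcases hu with hu | hu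
                · exact Or.inl hu
                · exact Or.inr ((mem_insert.1 hu).resolve_left hua)
              · rcases hv with hv | hv
                · exact Or.inl hv
                · exact Or.inr ((mem_insert.1 hv).resolve_left hva)
  obtain ⟨f, h1, h3, h2⟩ := key univ
  exact ⟨f, h1, fun v hv => h3 v (mem_univ v) hv,
    fun u v huv => h2 u v (Or.inr (mem_univ u)) (Or.inr (mem_univ v)) huv⟩

theorem card_two {C : Type} [DecidableEq C] (L K : Finset C) (a b : C)
    (h : ∀ γ ∈ L, γ ≠ a → γ ≠ b → γ ∈ K) : L.card ≤ K.card + 2 := by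
  have h1 : L ⊆ K ∪ {a, b} := by
    intro γ hγ
    rw [mem_union]
    by_contra hcon
    push Not at hcon
    simp only [mem_insert, mem_singleton, not_or] at hcon
    exact hcon.1 (h γ hγ hcon.2.1 hcon.2.2)
  have h2 := card_le_card h1
  have h3 := card_union_le K {a, b}
  have h4 : ({a, b} : Finset C).card ≤ 2 := card_le_two
  omega

theorem card_three {C : Type} [DecidableEq C] (L K : Finset C) (a b c : C)
    (h : ∀ γ ∈ L, γ ≠ a → γ ≠ b → γ ≠ c → γ ∈ K) : L.card ≤ K.card + 3 := by
  have h1 : L ⊆ K ∪ {a, b, c} := by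
    intro γ hγ
    rw [mem_union]
    by_contra hcon
    push Not at hcon
    simp only [mem_insert, mem_singleton, not_or] at hcon
    exact hcon.1 (h γ hγ hcon.2.1 hcon.2.2.1 hcon.2.2.2)
  have h2 := card_le_card h1
  have h3 := card_union_le K {a, b, c}
  have h4 : ({a, b, c} : Finset C).card ≤ 3 := card_le_three
  omega

/-- Colouring the edges outside the matching `M`. -/
theorem extend {V C : Type} [Fintype V] [Inhabited C] [DecidableEq C] (G M : SimpleGraph V) (X I : V → Prop)
    (hMG : M ≤ G) (hX : ∀ u v, (G \ M).Adj u v → (X u ↔ ¬ X v))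
    (hmatch : ∀ u v w, M.Adj u v → M.Adj u w → v = w)
    (hI0 : ∀ u, I u → ¬ ∃ w, M.Adj u w) (hI : ∀ u v, I u → I v → ¬ G.Adj u v) (τ : V → V)
    (hτ : ∀ w, (¬ ∃ z, M.Adj w z) → ¬ I w → I (τ w) ∧ G.Adj w (τ w))
    (hτi : ∀ w w', (¬ ∃ z, M.Adj w z) → ¬ I w → (¬ ∃ z, M.Adj w' z) → ¬ I w' → τ w = τ w' →
      w = w')
    (g1 : Sym2 V → C)
    (hsame : ∀ u v u' v', (G \ M).Adj u v → M.Adj u u' → M.Adj v v' → g1 s(u, u') = g1 s(v, v'))
    (f : V → C) (hf : ∀ u v, G.Adj u v → f u ≠ f v) (hfg : ∀ u v, M.Adj u v → g1 s(u, v) ≠ f u)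
    (Le : Sym2 V → Finset C)
    (hLe : ∀ u v, (G \ M).Adj u v → max (dg G u) (dg G v) + 2 ≤ (Le s(u, v)).card)
    (hgood : ∀ u v w, I u → G.Adj u v → M.Adj v w →
      max (dg G u) (dg G v) ≤ (Le s(u, v) \ {f u, f v, g1 s(v, w)}).card) :
    ∃ g : Sym2 V → C, IsTot G f g ∧ (∀ u v, M.Adj u v → g s(u, v) = g1 s(u, v)) ∧
      ∀ u v, (G \ M).Adj u v → g s(u, v) ∈ Le s(u, v) := by
  classical
  -- the selected neighbours
  have hνex : ∀ u, ∃ v, (∀ w, (¬ ∃ z, M.Adj w z) → ¬ I w → τ w = u → v = w) ∧
      (I u → ∀ w, (G \ M).Adj u w → (G \ M).Adj u v) := by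
    intro u
    by_cases h : ∃ w, (¬ ∃ z, M.Adj w z) ∧ ¬ I w ∧ τ w = u
    · obtain ⟨w, h1, h2, h3⟩ := h
      refine ⟨w, fun w' h1' h2' h3' => hτi w w' h1 h2 h1' h2' (h3.trans h3'.symm), ?_⟩
      intro _ _ _
      have h4 := (hτ w h1 h2).2
      rw [h3] at h4
      exact ⟨h4.symm, fun h5 => h1 ⟨u, h5.symm⟩⟩
    · by_cases h' : ∃ w, (G \ M).Adj u w
      · obtain ⟨w, hw⟩ := h'
        exact ⟨w, fun w' h1 h2 h3 => absurd ⟨w', h1, h2, h3⟩ h, fun _ _ _ => hw⟩
      · exact ⟨u, fun w' h1 h2 h3 => absurd ⟨w', h1, h2, h3⟩ h,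
          fun _ w hw => absurd ⟨w, hw⟩ h'⟩
  choose ν hν1 hν2 using hνex
  set L : Sym2 V → Finset C := fun z => (Le z).filter (fun γ => ∀ w ∈ z, γ ≠ f w ∧
    ∀ x, M.Adj w x → γ ≠ g1 s(w, x)) with hL
  have hLm : ∀ u v γ, γ ∈ L s(u, v) ↔ (γ ∈ Le s(u, v) ∧ (γ ≠ f u ∧ ∀ x, M.Adj u x →
      γ ≠ g1 s(u, x)) ∧ (γ ≠ f v ∧ ∀ x, M.Adj v x → γ ≠ g1 s(v, x))) := by
    intro u v γ
    simp only [hL, mem_filter, Sym2.mem_iff, forall_eq_or_imp, forall_eq]
  obtain ⟨c, hc1, hc2⟩ := lists_main (C := C) (G \ M) X I hX (fun u v hu hv h => hI u v hu hv h.1)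
    ν (fun u v hu huv => hν2 u hu v huv) (fun v => dg G v) (fun v => dg_mono sdiff_le v) (by
      intro v hv
      by_cases hvM : ∃ z, M.Adj v z
      · left
        obtain ⟨z, hz⟩ := hvM
        have := dg_lt (sdiff_le : G \ M ≤ G) (hMG hz) (fun h => h.2 hz)
        omega
      · right
        obtain ⟨h1, h2⟩ := hτ v hvM hv
        exact ⟨τ v, h1, ⟨h2.symm, fun h => hvM ⟨τ v, h.symm⟩⟩, hν1 (τ v) v hvM hv rfl⟩) L
    (by
      intro u v huv
      have h1 := hLe u v huv
      by_cases hu : ∃ x, M.Adj u x
      · obtain ⟨x, hx⟩ := hu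
        have h2 := card_three (Le s(u, v)) (L s(u, v)) (f u) (f v) (g1 s(u, x)) (by
          intro γ h3 h4 h5 h6
          rw [hLm]
          refine ⟨h3, ⟨h4, fun y hy => ?_⟩, h5, fun y hy => ?_⟩
          · rw [← hmatch u x y hx hy]; exact h6
          · rw [← hsame u v x y huv hx hy]; exact h6)
        show max (dg G u) (dg G v) ≤ _
        omega
      · by_cases hv : ∃ x, M.Adj v x
        · obtain ⟨x, hx⟩ := hv
          have h2 := card_three (Le s(u, v)) (L s(u, v)) (f u) (f v) (g1 s(v, x)) (by
            intro γ h3 h4 h5 h6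
            rw [hLm]
            refine ⟨h3, ⟨h4, fun y hy => absurd ⟨y, hy⟩ hu⟩, h5, fun y hy => ?_⟩
            rw [← hmatch v x y hx hy]; exact h6)
          show max (dg G u) (dg G v) ≤ _
          omega
        · have h2 := card_two (Le s(u, v)) (L s(u, v)) (f u) (f v) (by
            intro γ h3 h4 h5
            rw [hLm]
            exact ⟨h3, ⟨h4, fun y hy => absurd ⟨y, hy⟩ hu⟩, h5, fun y hy => absurd ⟨y, hy⟩ hv⟩)
          show max (dg G u) (dg G v) ≤ _
          omega)
    (by
      intro u v huv hu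
      have h1 := hLe u v huv
      have hu' := hI0 u hu
      by_cases hv : ∃ x, M.Adj v x
      · obtain ⟨x, hx⟩ := hv
        have h2 := hgood u v x hu huv.1 hx
        refine le_trans h2 (card_le_card ?_)
        intro γ hγ
        simp only [mem_sdiff, mem_insert, mem_singleton, not_or] at hγ
        rw [hLm]
        refine ⟨hγ.1, ⟨hγ.2.1, fun y hy => absurd ⟨y, hy⟩ hu'⟩, hγ.2.2.1, fun y hy => ?_⟩
        rw [← hmatch v x y hx hy]; exact hγ.2.2.2
      · have h2 := card_two (Le s(u, v)) (L s(u, v)) (f u) (f v) (by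
          intro γ h3 h4 h5
          rw [hLm]
          exact ⟨h3, ⟨h4, fun y hy => absurd ⟨y, hy⟩ hu'⟩, h5, fun y hy => absurd ⟨y, hy⟩ hv⟩)
        show max (dg G u) (dg G v) ≤ _
        omega)
  refine ⟨_, combine G M hmatch g1 f hf hfg c ?_ hc2, ?_, ?_⟩
  · intro u v huv
    exact ((hLm u v _).1 (hc1 u v huv)).2.1
  · intro u v huv
    rw [if_pos ((SimpleGraph.mem_edgeSet M).2 huv)]
  · intro u v huv
    rw [if_neg (fun h => huv.2 ((SimpleGraph.mem_edgeSet M).1 h))]
    exact ((hLm u v _).1 (hc1 u v huv)).1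

end Pool.Agent.NH79.TB
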