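import Mathlib
import Pool.Agent.NH79.TB.Main

set_option autoImplicit false

/-!
# The two extension theorems
-/

namespace Pool.Agent.NH79.TB

open Finset Pool.Agent.TH559.LE

theorem edist_one {V : Type} (G : SimpleGraph V) {u v : V} (h : G.Adj u v)
    (h3 : 3 ≤ G.edist u v) : False := by
  have h4 : G.edist u v ≤ 1 := by
    have := SimpleGraph.edist_le (SimpleGraph.Walk.cons h SimpleGraph.Walk.nil)
    simpa using this
  have h5 : (3 : ℕ∞) ≤ 1 := h3.trans h4
  exact absurd h5 (by decide)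

theorem edist_two {V : Type} (G : SimpleGraph V) {u v w : V} (h : G.Adj u v) (h' : G.Adj v w)
    (h3 : 3 ≤ G.edist u w) : False := by
  have h4 : G.edist u w ≤ 2 := by
    have := SimpleGraph.edist_le (SimpleGraph.Walk.cons h
      (SimpleGraph.Walk.cons h' SimpleGraph.Walk.nil))
    simpa using this
  have h5 : (3 : ℕ∞) ≤ 2 := h3.trans h4
  exact absurd h5 (by decide)

theorem edist_zero {V : Type} (G : SimpleGraph V) {u : V} (h3 : 3 ≤ G.edist u u) : False := by
  rw [SimpleGraph.edist_self] at h3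
  exact absurd h3 (by decide)

/-- Graphs that are bipartite outside a coloured matching `M`; the vertices of `D` are coloured, too. -/
theorem part_general {V : Type} [Fintype V] (G M : SimpleGraph V) (Δ : ℕ) (X D : Set V)
    (hΔ : ∀ v, (G.neighborSet v).ncard ≤ Δ) (hMG : M ≤ G)
    (hmatch : ∀ u v w, M.Adj u v → M.Adj u w → v = w)
    (hX : ∀ u v, G.Adj u v → ¬ M.Adj u v → (u ∈ X ↔ v ∉ X))
    (f0 : V → Fin (Δ + 2)) (g0 : Sym2 V → Fin (Δ + 2))
    (hD : ∀ u ∈ D, ∀ v ∈ D, G.Adj u v → f0 u ≠ f0 v)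
    (hDM : ∀ u ∈ D, ∀ v, M.Adj u v → g0 s(u, v) ≠ f0 u)
    (h1 : ∀ u u' v v', M.Adj u u' → M.Adj v v' → G.Adj u v → g0 s(u, u') = g0 s(v, v'))
    (h2 : ∀ a u u' v v', (∀ b, ¬ M.Adj a b) → G.Adj a u → G.Adj a v → M.Adj u u' →
      M.Adj v v' → g0 s(u, u') = g0 s(v, v'))
    (h3 : ∀ a u v v', (∀ b, ¬ M.Adj a b) → a ∉ D → G.Adj a u → u ∈ D → G.Adj a v →
      M.Adj v v' → f0 u ≠ g0 s(v, v'))
    (h4 : ∀ a ∈ D, ∀ v v', (∀ b, ¬ M.Adj a b) → G.Adj a v → M.Adj v v' →
      f0 a = g0 s(v, v')) :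
    ∃ (f : V → Fin (Δ + 2)) (g : Sym2 V → Fin (Δ + 2)), IsTot G f g ∧
      (∀ u ∈ D, f u = f0 u) ∧ ∀ u v, M.Adj u v → g s(u, v) = g0 s(u, v) := by
  classical
  obtain ⟨I, τ, hI1, hI2, hτ, hτi⟩ := indep_match G (fun v => ¬ ∃ z, M.Adj v z) (fun v => v ∈ X)
    (fun u v hu _ huv => hX u v huv (fun h => hu ⟨v, h⟩))
  have hcc : ∀ v, ∃ γ : Fin (Δ + 2), (∀ b, ¬ M.Adj v b) → ∀ w z, G.Adj v w → M.Adj w z →
      γ = g0 s(w, z) := by
    intro v
    by_cases h : ∃ w z, G.Adj v w ∧ M.Adj w z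
    · obtain ⟨w, z, h1', h2'⟩ := h
      exact ⟨g0 s(w, z), fun hv w' z' h3' h4' => h2 v w z w' z' hv h1' h3' h2' h4'⟩
    · exact ⟨0, fun _ w z h1' h2' => absurd ⟨w, z, h1', h2'⟩ h⟩
  choose cc hcc using hcc
  -- the vertex colours
  set f1 : V → Fin (Δ + 2) := fun v => if v ∈ D then f0 v else cc v with hf1
  set P : V → Prop := fun v => v ∈ D ∨ (I v ∧ ∃ x z, G.Adj v x ∧ M.Adj x z) with hP
  have f1D : ∀ v ∈ D, f1 v = f0 v := by
    intro v hv
    simp only [hf1]
    rw [if_pos hv]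
  have f1I : ∀ v, I v → ∀ x z, G.Adj v x → M.Adj x z → f1 v = g0 s(x, z) := by
    intro v hv x z hvx hxz
    have hb : ∀ b, ¬ M.Adj v b := fun b hb => hI1 v hv ⟨b, hb⟩
    by_cases hvD : v ∈ D
    · rw [f1D v hvD]
      exact h4 v hvD x z hb hvx hxz
    · simp only [hf1]
      rw [if_neg hvD]
      exact hcc v hb x z hvx hxz
  have propDI : ∀ u v, u ∈ D → v ∉ D → I v → (∃ x z, G.Adj v x ∧ M.Adj x z) → G.Adj u v →
      f1 u ≠ f1 v := by
    rintro u v hu hvD hv ⟨x, z, hvx, hxz⟩ huv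
    rw [f1D u hu, f1I v hv x z hvx hxz]
    exact h3 v u x z (fun b hb => hI1 v hv ⟨b, hb⟩) hvD huv.symm hu hvx hxz
  obtain ⟨f, hfD, hfL, hf⟩ := vext_list G f1 P (by
    intro u v hu hv huv
    by_cases huD : u ∈ D
    · by_cases hvD : v ∈ D
      · rw [f1D u huD, f1D v hvD]
        exact hD u huD v hvD huv
      · have hv' := hv.resolve_left hvD
        exact propDI u v huD hvD hv'.1 hv'.2 huv
    · have hu' := hu.resolve_left huD
      by_cases hvD : v ∈ D
      · exact (propDI v u hvD huD hu'.1 hu'.2 huv.symm).symm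
      · have hv' := hv.resolve_left hvD
        exact absurd huv (hI2 u v hu'.1 hv'.1))
    (fun v => univ.filter (fun γ => ∀ z, M.Adj v z → γ ≠ g0 s(v, z))) (by
      intro v _
      have e1 : dg G v ≤ Δ := hΔ v
      have e2 : (univ : Finset (Fin (Δ + 2))).card ≤
          (univ.filter (fun γ : Fin (Δ + 2) => ∀ z, M.Adj v z → γ ≠ g0 s(v, z))).card + 1 := by
        by_cases hv : ∃ z, M.Adj v z
        · obtain ⟨z, hz⟩ := hv
          have e3 : (univ : Finset (Fin (Δ + 2))).erase (g0 s(v, z)) ⊆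
              univ.filter (fun γ : Fin (Δ + 2) => ∀ z, M.Adj v z → γ ≠ g0 s(v, z)) := by
            intro γ hγ
            rw [mem_erase] at hγ
            rw [mem_filter]
            refine ⟨mem_univ _, fun y hy => ?_⟩
            rw [← hmatch v z y hz hy]
            exact hγ.1
          have e4 := card_le_card e3
          rw [card_erase_of_mem (mem_univ _)] at e4
          omega
        · have e3 : (univ : Finset (Fin (Δ + 2))) ⊆
              univ.filter (fun γ : Fin (Δ + 2) => ∀ z, M.Adj v z → γ ≠ g0 s(v, z)) := by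
            intro γ _
            rw [mem_filter]
            exact ⟨mem_univ _, fun y hy => absurd ⟨y, hy⟩ hv⟩
          exact (card_le_card e3).trans (Nat.le_succ _)
      rw [card_univ, Fintype.card_fin] at e2
      omega)
  have hΔ' : ∀ u v, max (dg G u) (dg G v) ≤ Δ := fun u v => max_le (hΔ u) (hΔ v)
  obtain ⟨g, hg1', hg2, _⟩ := extend (C := Fin (Δ + 2)) G M (fun v => v ∈ X) I hMG
    (fun u v huv => hX u v huv.1 huv.2) hmatch hI1 hI2 τ
    (fun w h1 h2 => hτ w h1 h2) (fun w w' h1 h2 h3 h4 h5 => hτi w w' h1 h2 h3 h4 h5) g0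
    (fun u v u' v' huv hu hv => h1 u u' v v' hu hv huv.1) f hf (by
      intro u v huv
      by_cases h : u ∈ D
      · rw [hfD u (Or.inl h), f1D u h]
        exact hDM u h v huv
      · have hnP : ¬ P u := by
          rintro (h' | ⟨h', _⟩)
          · exact h h'
          · exact hI1 u h' ⟨v, huv⟩
        have h1 := hfL u hnP
        rw [mem_filter] at h1
        exact (h1.2 v huv).symm)
    (fun _ => univ) (by
      intro u v _
      rw [card_univ, Fintype.card_fin]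
      have := hΔ' u v
      omega) (by
      intro u v w hu huv hvw
      have h1 : f u = g0 s(v, w) := by
        rw [hfD u (Or.inr ⟨hu, v, w, huv, hvw⟩)]
        exact f1I u hu v w huv hvw
      have h2 := card_two (univ : Finset (Fin (Δ + 2))) (univ \ {f u, f v, g0 s(v, w)}) (f u) (f v)
        (by
          intro γ _ h3 h4
          simp only [mem_sdiff, mem_univ, mem_insert, mem_singleton, not_or, true_and]
          exact ⟨h3, h4, h1 ▸ h3⟩)
      rw [card_univ, Fintype.card_fin] at h2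
      refine (hΔ' u v).trans ?_
      omega)
  exact ⟨f, g, hg1', fun u hu => by rw [hfD u (Or.inl hu), f1D u hu], hg2⟩

/-- Graphs that are bipartite outside a matching. -/
theorem part_one {V : Type} [Fintype V] (G H M : SimpleGraph V) (Δ : ℕ) (X : Set V)
    (hΔ : ∀ v, (G.neighborSet v).ncard ≤ Δ) (hHM : H ≤ M) (hMG : M ≤ G)
    (hmatch : ∀ u v w, M.Adj u v → M.Adj u w → v = w)
    (hdist : ∀ u v x y, H.Adj u v → M.Adj x y → s(u, v) ≠ s(x, y) → 3 ≤ G.edist u x)
    (hX : ∀ u v, G.Adj u v → ¬ M.Adj u v → (u ∈ X ↔ v ∉ X))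
    (f0 : V → Fin (Δ + 2)) (g0 : Sym2 V → Fin (Δ + 2)) (h0 : IsTot H f0 g0)
    (U : Set V) (hU1 : ∀ u ∈ U, ∀ x y, M.Adj x y → 3 ≤ G.edist u x)
    (hU2 : ∀ u ∈ U, ∀ v ∈ U, G.Adj u v → f0 u ≠ f0 v) :
    ∃ (f : V → Fin (Δ + 2)) (g : Sym2 V → Fin (Δ + 2)), IsTot G f g ∧
      (∀ u v, H.Adj u v → f u = f0 u ∧ g s(u, v) = g0 s(u, v)) ∧ ∀ u ∈ U, f u = f0 u := by
  classical
  set g1 : Sym2 V → Fin (Δ + 2) := fun z => if z ∈ H.edgeSet then g0 z else 0 with hg1
  have g1H : ∀ u v, H.Adj u v → g1 s(u, v) = g0 s(u, v) := by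
    intro u v huv
    simp only [hg1]
    rw [if_pos ((SimpleGraph.mem_edgeSet H).2 huv)]
  have g1M : ∀ u v, ¬ H.Adj u v → g1 s(u, v) = 0 := by
    intro u v huv
    simp only [hg1]
    rw [if_neg (fun h => huv ((SimpleGraph.mem_edgeSet H).1 h))]
  have near : ∀ u u' v v', M.Adj u u' → M.Adj v v' → (∃ a, G.Adj u a ∧ G.Adj a v) ∨ G.Adj u v →
      g1 s(u, u') = g1 s(v, v') := by
    intro u u' v v' hu hv hor
    by_cases heq : s(u, u') = s(v, v')
    · rw [heq]
    · have hfar : ¬ 3 ≤ G.edist u v := by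
        intro h3
        rcases hor with ⟨a, h1, h2⟩ | h1
        · exact edist_two G h1 h2 h3
        · exact edist_one G h1 h3
      have h1 : ¬ H.Adj u u' := fun h => hfar (hdist u u' v v' h hv heq)
      have h2 : ¬ H.Adj v v' := by
        intro h
        have h3 := hdist v v' u u' h hu (Ne.symm heq)
        rw [SimpleGraph.edist_comm] at h3
        exact hfar h3
      rw [g1M u u' h1, g1M v v' h2]
  have hUn : ∀ u ∈ U, ¬ (∃ w, M.Adj u w) ∧ ¬ ∃ x z, G.Adj u x ∧ M.Adj x z := by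
    intro u hu
    refine ⟨fun ⟨w, hw⟩ => edist_zero G (hU1 u hu u w hw), ?_⟩
    rintro ⟨x, z, h1, h2⟩
    exact edist_one G h1 (hU1 u hu x z h2)
  obtain ⟨f, g, hfg, hf, hg⟩ := part_general G M Δ X ({v | ∃ w, H.Adj v w} ∪ U) hΔ hMG hmatch hX
    f0 g1 (by
      intro u hu v hv huv
      rcases hu with ⟨w, hw⟩ | hu
      · rcases hv with ⟨w', hw'⟩ | hv
        · by_cases heq : s(u, w) = s(v, w')
          · rcases Sym2.eq_iff.1 heq with ⟨h1, _⟩ | ⟨h1, h2⟩
            · exact absurd h1 huv.ne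
            · subst h2
              exact h0.1 u w hw
          · exact (edist_one G huv (hdist u w v w' hw (hHM hw') heq)).elim
        · exact absurd ⟨u, w, huv.symm, hHM hw⟩ (hUn v hv).2
      · rcases hv with ⟨w', hw'⟩ | hv
        · exact absurd ⟨v, w', huv, hHM hw'⟩ (hUn u hu).2
        · exact hU2 u hu v hv huv)
    (by
      intro u hu v huv
      rcases hu with ⟨w, hw⟩ | hu
      · have h1 := hmatch u v w huv (hHM hw)
        subst h1
        rw [g1H u v hw]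
        exact h0.2.2 u v hw
      · exact absurd ⟨v, huv⟩ (hUn u hu).1)
    (fun u u' v v' hu hv huv => near u u' v v' hu hv (Or.inr huv))
    (fun a u u' v v' _ hau hav hu hv => near u u' v v' hu hv (Or.inl ⟨a, hau.symm, hav⟩))
    (by
      intro a u v v' _ haD hau hu hav hv
      rcases hu with ⟨w, hw⟩ | hu
      · rw [← near u w v v' (hHM hw) hv (Or.inl ⟨a, hau.symm, hav⟩), g1H u w hw]
        exact (h0.2.2 u w hw).symm
      · exact (edist_two G hau.symm hav (hU1 u hu v v' hv)).elim)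
    (by
      intro a ha v v' hab hav hv
      rcases ha with ⟨w, hw⟩ | ha
      · exact absurd (hHM hw) (hab w)
      · exact absurd ⟨v, v', hav, hv⟩ (hUn a ha).2)
  exact ⟨f, g, hfg, fun u v huv => ⟨hf u (Or.inl ⟨v, huv⟩), by rw [hg u v (hHM huv), g1H u v huv]⟩,
    fun u hu => hf u (Or.inr hu)⟩

theorem pick (A K : Finset ℕ) (a b m : ℕ) (h1 : m + 2 ≤ A.card) (h2 : m + 2 ≤ K.card) :
    ∃ γ ∈ K, γ ≠ a ∧ m ≤ (A \ {γ, a, b}).card := by
  by_cases h : m + 1 ≤ (A \ {a, b}).card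
  · obtain ⟨γ, hγ⟩ : (K.erase a).Nonempty := by
      rw [← card_pos]
      have := pred_card_le_card_erase (s := K) (a := a)
      omega
    rw [mem_erase] at hγ
    refine ⟨γ, hγ.2, hγ.1, ?_⟩
    have h3 : (A \ {a, b}).erase γ ⊆ A \ {γ, a, b} := by
      intro x hx
      simp only [mem_erase, mem_sdiff, mem_insert, mem_singleton, not_or] at hx ⊢
      exact ⟨hx.2.1, hx.1, hx.2.2⟩
    have h4 := card_le_card h3
    have := pred_card_le_card_erase (s := A \ {a, b}) (a := γ)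
    omega
  · have hab : a ≠ b ∧ a ∈ A ∧ b ∈ A := by
      refine ⟨?_, ?_, ?_⟩
      · rintro rfl
        have h3 : A.erase a ⊆ A \ {a, a} := by
          intro x hx
          simp only [mem_erase, mem_sdiff, mem_insert, mem_singleton, not_or] at hx ⊢
          exact ⟨hx.2, hx.1, hx.1⟩
        have h4 := card_le_card h3
        have := pred_card_le_card_erase (s := A) (a := a)
        omega
      · by_contra ha
        have h3 : A.erase b ⊆ A \ {a, b} := by
          intro x hx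
          simp only [mem_erase, mem_sdiff, mem_insert, mem_singleton, not_or] at hx ⊢
          exact ⟨hx.2, fun h => ha (h ▸ hx.2), hx.1⟩
        have h4 := card_le_card h3
        have := pred_card_le_card_erase (s := A) (a := b)
        omega
      · by_contra hb
        have h3 : A.erase a ⊆ A \ {a, b} := by
          intro x hx
          simp only [mem_erase, mem_sdiff, mem_insert, mem_singleton, not_or] at hx ⊢
          exact ⟨hx.2, hx.1, fun h => hb (h ▸ hx.2)⟩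
        have h4 := card_le_card h3
        have := pred_card_le_card_erase (s := A) (a := a)
        omega
    have hA : (A.erase b).card < K.card := by
      have h3 := card_le_card (show (A.erase b).erase a ⊆ A \ {a, b} by
        intro x hx
        simp only [mem_erase, mem_sdiff, mem_insert, mem_singleton, not_or] at hx ⊢
        exact ⟨hx.2.2, hx.1, hx.2.1⟩)
      rw [card_erase_of_mem (mem_erase.2 ⟨hab.1, hab.2.1⟩)] at h3
      omega
    obtain ⟨γ, hγK, hγ⟩ := exists_mem_notMem_of_card_lt_card hA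
    have hγ' : γ = b ∨ γ ∉ A := by
      by_contra hcon
      push Not at hcon
      exact hγ (mem_erase.2 hcon)
    refine ⟨γ, hγK, ?_, ?_⟩
    · rintro rfl
      exact hγ (mem_erase.2 ⟨hab.1, hab.2.1⟩)
    · have h3 : A \ {a, b} ⊆ A \ {γ, a, b} := by
        intro x hx
        simp only [mem_sdiff, mem_insert, mem_singleton, not_or] at hx ⊢
        refine ⟨hx.1, ?_, hx.2⟩
        rintro rfl
        rcases hγ' with h5 | h5
        · exact hx.2.2 h5
        · exact h5 hx.1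
      have h4 := card_le_card h3
      have h5 : A.card ≤ (A \ {a, b}).card + 2 := by
        have h6 := le_card_sdiff {a, b} A
        have h7 : ({a, b} : Finset ℕ).card ≤ 2 := card_le_two
        omega
      omega

/-- Bipartite graphs, with lists. -/
theorem part_two {V : Type} [Fintype V] (G H : SimpleGraph V) (X : Set V)
    (hX : ∀ u v, G.Adj u v → (u ∈ X ↔ v ∉ X)) (hHG : H ≤ G)
    (hmatch : ∀ u v w, H.Adj u v → H.Adj u w → v = w)
    (hdist : ∀ u v x y, H.Adj u v → H.Adj x y → s(u, v) ≠ s(x, y) → 3 ≤ G.edist u x)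
    (f0 : V → ℕ) (g0 : Sym2 V → ℕ) (h0 : IsTot H f0 g0)
    (U : Set V) (hU1 : ∀ u ∈ U, ∀ x y, H.Adj x y → 3 ≤ G.edist u x)
    (hU2 : ∀ u ∈ U, ∀ v ∈ U, G.Adj u v → f0 u ≠ f0 v)
    (Lv : V → Finset ℕ) (Le : Sym2 V → Finset ℕ)
    (hLv : ∀ v, (G.neighborSet v).ncard + 1 ≤ (Lv v).card)
    (hLv2 : ∀ v x y, G.Adj v x → ¬ H.Adj v x → H.Adj x y →
      max (G.neighborSet v).ncard (G.neighborSet x).ncard + 2 ≤ (Lv v).card)
    (hLe : ∀ u v, G.Adj u v → ¬ H.Adj u v →
      max (G.neighborSet u).ncard (G.neighborSet v).ncard + 2 ≤ (Le s(u, v)).card) :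
    ∃ (f : V → ℕ) (g : Sym2 V → ℕ), IsTot G f g ∧
      (∀ u v, H.Adj u v → f u = f0 u ∧ g s(u, v) = g0 s(u, v)) ∧ (∀ u ∈ U, f u = f0 u) ∧
      (∀ v, v ∉ U → (∀ w, ¬ H.Adj v w) → f v ∈ Lv v) ∧
      ∀ u v, G.Adj u v → ¬ H.Adj u v → g s(u, v) ∈ Le s(u, v) := by
  classical
  obtain ⟨I, τ, hI1, hI2, hτ, hτi⟩ := indep_match G (fun v => ¬ ∃ z, H.Adj v z) (fun v => v ∈ X)
    (fun u v _ _ huv => hX u v huv)
  have hone : ∀ u v, G.Adj u v → (∃ x, H.Adj u x) → (∃ y, H.Adj v y) → H.Adj u v := by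
    rintro u v huv ⟨x, hx⟩ ⟨y, hy⟩
    by_contra hn
    have hne : s(u, x) ≠ s(v, y) := by
      intro h
      rw [Sym2.eq_iff] at h
      rcases h with ⟨h1, h2⟩ | ⟨h1, h2⟩
      · exact huv.ne h1
      · subst h2
        exact hn hx
    exact edist_one G huv (hdist u x v y hx hy hne)
  have huniq : ∀ v w z w' z', G.Adj v w → H.Adj w z → G.Adj v w' → H.Adj w' z' →
      w = w' ∧ z = z' := by
    intro v w z w' z' h1 h2 h3 h4
    have h5 : s(w, z) = s(w', z') := by
      by_contra hne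
      exact edist_two G h1.symm h3 (hdist w z w' z' h2 h4 hne)
    rcases Sym2.eq_iff.1 h5 with h6 | ⟨h6, h7⟩
    · exact h6
    · exfalso
      subst h6
      subst h7
      have e1 := hX _ _ h1
      have e2 := hX _ _ h3
      have e3 := hX _ _ (hHG h2)
      tauto
  have hcc : ∀ v, ∃ γ : ℕ, (∃ x z, G.Adj v x ∧ H.Adj x z) → I v → γ ∈ Lv v ∧
      ∀ w z, G.Adj v w → H.Adj w z → γ ≠ f0 w ∧
        max (dg G v) (dg G w) ≤ (Le s(v, w) \ {γ, f0 w, g0 s(w, z)}).card := by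
    intro v
    by_cases h : (∃ x z, G.Adj v x ∧ H.Adj x z) ∧ I v
    · obtain ⟨⟨x, z, h1, h2⟩, hv⟩ := h
      have hn : ¬ H.Adj v x := fun h => hI1 v hv ⟨x, h⟩
      obtain ⟨γ, hγ1, hγ2, hγ3⟩ := pick (Le s(v, x)) (Lv v) (f0 x) (g0 s(x, z))
        (max (dg G v) (dg G x)) (hLe v x h1 hn) (hLv2 v x z h1 hn h2)
      refine ⟨γ, fun _ _ => ⟨hγ1, fun w z' h3 h4 => ?_⟩⟩
      obtain ⟨h5, h6⟩ := huniq v x z w z' h1 h2 h3 h4
      subst h5
      subst h6
      exact ⟨hγ2, hγ3⟩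
    · exact ⟨0, fun h1 h2 => absurd ⟨h1, h2⟩ h⟩
  choose cc hcc using hcc
  -- the vertex colours
  set f1 : V → ℕ := fun v => if (∃ w, H.Adj v w) then f0 v else
    if I v ∧ (∃ x z, G.Adj v x ∧ H.Adj x z) then cc v else f0 v with hf1
  set D : V → Prop := fun v => (∃ w, H.Adj v w) ∨ (I v ∧ ∃ x z, G.Adj v x ∧ H.Adj x z) ∨ v ∈ U
    with hD
  have f1H : ∀ v, (∃ w, H.Adj v w) → f1 v = f0 v := by
    intro v hv
    simp only [hf1]
    rw [if_pos hv]
  have f1I : ∀ v, I v → (∃ x z, G.Adj v x ∧ H.Adj x z) → f1 v = cc v := by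
    intro v hv hn
    simp only [hf1]
    rw [if_neg (fun ⟨w, hw⟩ => hI1 v hv ⟨w, hw⟩), if_pos ⟨hv, hn⟩]
  have hUn : ∀ u ∈ U, ¬ (∃ w, H.Adj u w) ∧ ¬ ∃ x z, G.Adj u x ∧ H.Adj x z := by
    intro u hu
    refine ⟨fun ⟨w, hw⟩ => edist_zero G (hU1 u hu u w hw), ?_⟩
    rintro ⟨x, z, h1, h2⟩
    exact edist_one G h1 (hU1 u hu x z h2)
  have f1U : ∀ v ∈ U, f1 v = f0 v := by
    intro v hv
    obtain ⟨h1, h2⟩ := hUn v hv
    simp only [hf1]
    rw [if_neg (fun ⟨w, hw⟩ => h1 ⟨w, hw⟩), if_neg (fun h => h2 h.2)]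
  have propHI : ∀ u v, (∃ w, H.Adj u w) → I v → (∃ x z, G.Adj v x ∧ H.Adj x z) → G.Adj u v →
      f1 u ≠ f1 v := by
    rintro u v ⟨w, hw⟩ hv hn huv
    rw [f1H u ⟨w, hw⟩, f1I v hv hn]
    exact (((hcc v hn hv).2 u w huv.symm hw).1).symm
  have propU : ∀ u v, u ∈ U → D v → G.Adj u v → f1 u ≠ f1 v := by
    intro u v hu hv huv
    rcases hv with ⟨w, hw⟩ | ⟨_, x, z, h1, h2⟩ | hv
    · exact absurd ⟨v, w, huv, hw⟩ (hUn u hu).2
    · exact (edist_two G huv h1 (hU1 u hu x z h2)).elim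
    · rw [f1U u hu, f1U v hv]
      exact hU2 u hu v hv huv
  obtain ⟨f, hfD, hfL, hf⟩ := vext_list G f1 D (by
    intro u v hu hv huv
    rcases hu with hu | hu | hu
    · rcases hv with hv | hv | hv
      · rw [f1H u hu, f1H v hv]
        exact h0.1 u v (hone u v huv hu hv)
      · exact propHI u v hu hv.1 hv.2 huv
      · exact (propU v u hv (Or.inl hu) huv.symm).symm
    · rcases hv with hv | hv | hv
      · exact (propHI v u hv hu.1 hu.2 huv.symm).symm
      · exact absurd huv (hI2 u v hu.1 hv.1)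
      · exact (propU v u hv (Or.inr (Or.inl hu)) huv.symm).symm
    · exact propU u v hu hv huv)
    Lv (fun v _ => hLv v)
  obtain ⟨g, hg1', hg2, hg3⟩ := extend (C := ℕ) G H (fun v => v ∈ X) I hHG
    (fun u v huv => hX u v huv.1) hmatch hI1 hI2 τ
    (fun w h1 h2 => hτ w h1 h2) (fun w w' h1 h2 h3 h4 h5 => hτi w w' h1 h2 h3 h4 h5) g0
    (fun u v u' v' huv hu hv => absurd (hone u v huv.1 ⟨u', hu⟩ ⟨v', hv⟩) huv.2) f hf (by
      intro u v huv
      rw [hfD u (Or.inl ⟨v, huv⟩), f1H u ⟨v, huv⟩]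
      exact h0.2.2 u v huv)
    Le (fun u v huv => hLe u v huv.1 huv.2) (by
      intro u v w hu huv hvw
      have hn : ∃ x z, G.Adj u x ∧ H.Adj x z := ⟨v, w, huv, hvw⟩
      have h1 := ((hcc u hn hu).2 v w huv hvw).2
      rw [← f1I u hu hn, ← f1H v ⟨w, hvw⟩, ← hfD u (Or.inr (Or.inl ⟨hu, hn⟩)),
        ← hfD v (Or.inl ⟨w, hvw⟩)] at h1
      exact h1)
  refine ⟨f, g, hg1', ?_, ?_, ?_, ?_⟩
  · intro u v huv
    exact ⟨by rw [hfD u (Or.inl ⟨v, huv⟩), f1H u ⟨v, huv⟩], hg2 u v huv⟩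
  · intro u hu
    rw [hfD u (Or.inr (Or.inr hu)), f1U u hu]
  · intro v hvU hvH
    by_cases hvD : D v
    · rcases hvD with ⟨w, hw⟩ | ⟨h1, h2⟩ | h1
      · exact absurd hw (hvH w)
      · rw [hfD v (Or.inr (Or.inl ⟨h1, h2⟩)), f1I v h1 h2]
        exact (hcc v h2 h1).1
      · exact absurd h1 hvU
    · exact hfL v hvD
  · intro u v huv hn
    exact hg3 u v ⟨huv, hn⟩

end Pool.Agent.NH79.TB
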